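import Pool.Agent.BER.StmtsE

/-!
# Squad BER (MP_be01ff_an), row RWD: the Laplacian of a radial function, weak form, dimension `d`
(after PWK of helper3 and RWK of helper27)
-/

set_option autoImplicit false

namespace Pool.Agent.BER.H29

open Set Filter Topology MeasureTheory
open scoped InnerProductSpace ENNReal
open Pool.Agent.BE01

noncomputable section

variable {d : ℕ}

theorem grad_inner {f : En d → ℝ} (x w : En d) : ⟪gradient f x, w⟫_ℝ = fderiv ℝ f x w := by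
  unfold gradient
  rw [InnerProductSpace.toDual_symm_apply]

/-- functions continuous on `Ω`, zero outside of a compact subset -/
theorem cont_ext {v : En d → ℝ} {Ω K : Set (En d)} (hΩ : IsOpen Ω) (hK : IsCompact K)
    (hKΩ : K ⊆ Ω) (hv : ContinuousOn v Ω) (h0 : ∀ x, x ∉ K → v x = 0) :
    Continuous v ∧ HasCompactSupport v := by
  refine ⟨?_, HasCompactSupport.intro hK fun x hx => h0 x hx⟩
  rw [continuous_iff_continuousAt]
  intro x
  by_cases hx : x ∈ Ω
  · exact hv.continuousAt (hΩ.mem_nhds hx)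
  · have h1 : Kᶜ ∈ 𝓝 x := hK.isClosed.isOpen_compl.mem_nhds fun h => hx (hKΩ h)
    have h2 : (fun _ => (0 : ℝ)) =ᶠ[𝓝 x] v := by
      filter_upwards [h1] with y hy
      exact (h0 y hy).symm
    exact continuousAt_const.congr h2

/-- a test function times a function smooth on `Ω` is a smooth function -/
theorem mul_smooth {ψ f : En d → ℝ} {Ω : Set (En d)} (hΩ : IsOpen Ω) (hψ : Tst Ω ψ)
    (hf : ContDiffOn ℝ ((⊤ : ℕ∞) : WithTop ℕ∞) f Ω) : Tst Ω (fun x => ψ x * f x) := by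
  have hs : tsupport (fun x => ψ x * f x) ⊆ tsupport ψ := tsupport_mul_subset_left
  refine ⟨?_, hψ.2.1.mul_right, hs.trans hψ.2.2⟩
  rw [contDiff_iff_contDiffAt]
  intro x
  by_cases hx : x ∈ Ω
  · exact hψ.1.contDiffAt.mul (hf.contDiffAt (hΩ.mem_nhds hx))
  · have h1 : (tsupport ψ)ᶜ ∈ 𝓝 x :=
      (isClosed_tsupport ψ).isOpen_compl.mem_nhds fun h => hx (hψ.2.2 h)
    have h2 : (fun x => ψ x * f x) =ᶠ[𝓝 x] fun _ => (0 : ℝ) := by
      filter_upwards [h1] with y hy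
      rw [image_eq_zero_of_notMem_tsupport hy, zero_mul]
    exact (contDiffAt_const (c := (0 : ℝ))).congr_of_eventuallyEq h2

theorem fderiv_zero_of {ψ : En d → ℝ} {x : En d} (hx : x ∉ tsupport ψ) : fderiv ℝ ψ x = 0 := by
  have h2 : x ∉ tsupport (fderiv ℝ ψ) := fun h3 => hx (tsupport_fderiv_subset ℝ h3)
  exact image_eq_zero_of_notMem_tsupport h2

theorem gradient_zero_of {ψ : En d → ℝ} {x : En d} (hx : x ∉ tsupport ψ) : gradient ψ x = 0 := by
  rw [gradient, fderiv_zero_of hx, map_zero]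

/-- the divergence theorem for `u(x) x` -/
theorem euler_int {u : En d → ℝ} (hu : ContDiff ℝ ((⊤ : ℕ∞) : WithTop ℕ∞) u) (hc : HasCompactSupport u) :
    Integrable (fun x => fderiv ℝ u x x + (d : ℝ) * u x) ∧ ∫ x, (fderiv ℝ u x x + (d : ℝ) * u x) = 0 := by
  set e := EuclideanSpace.basisFun (Fin d) ℝ with he
  have hud : Differentiable ℝ u := hu.differentiable (by simp)
  have huc : Continuous (fderiv ℝ u) := hu.continuous_fderiv (by simp)
  have hcf : HasCompactSupport (fderiv ℝ u) := hc.fderiv (𝕜 := ℝ)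
  have hl : ∀ i (x : En d), HasFDerivAt (fun z : En d => ⟪e i, z⟫_ℝ) (innerSL ℝ (e i)) x :=
    fun i x => (innerSL ℝ (e i)).hasFDerivAt
  have i1 : ∀ i, Integrable (fun x : En d => fderiv ℝ u x (e i) * ⟪e i, x⟫_ℝ) := by
    intro i
    apply Continuous.integrable_of_hasCompactSupport
    · exact (huc.clm_apply continuous_const).mul (continuous_const.inner continuous_id)
    · exact (hcf.comp_left (g := fun L : En d →L[ℝ] ℝ => L (e i)) (by simp)).mul_right
  have i3 : ∀ i, Integrable (fun x : En d => u x * ⟪e i, x⟫_ℝ) := by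
    intro i
    apply Continuous.integrable_of_hasCompactSupport
    · exact hu.continuous.mul (continuous_const.inner continuous_id)
    · exact hc.mul_right
  have hf : ∀ i (x : En d), fderiv ℝ (fun z : En d => ⟪e i, z⟫_ℝ) x (e i) = 1 := by
    intro i x
    rw [(hl i x).fderiv, innerSL_apply_apply, real_inner_self_eq_norm_sq, e.norm_eq_one]
    norm_num
  have i2' : Integrable u := hu.continuous.integrable_of_hasCompactSupport hc
  have i2 : ∀ i, Integrable (fun x : En d => u x * fderiv ℝ (fun z : En d => ⟪e i, z⟫_ℝ) x (e i)) := by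
    intro i
    simp only [hf, mul_one]
    exact i2'
  have h1 : ∀ i, ∫ x : En d, fderiv ℝ u x (e i) * ⟪e i, x⟫_ℝ = - ∫ x, u x := by
    intro i
    have h2 := integral_mul_fderiv_eq_neg_fderiv_mul_of_integrable (i1 i) (i2 i) (i3 i)
      (fun z _ => hud z) (fun z _ => (hl i z).differentiableAt)
    simp only [hf, mul_one] at h2
    rw [h2, neg_neg]
  have h3 : ∀ x : En d, fderiv ℝ u x x = ∑ i, fderiv ℝ u x (e i) * ⟪e i, x⟫_ℝ := by
    intro x
    have h4 : x = ∑ i, ⟪e i, x⟫_ℝ • e i := (e.sum_repr' x).symm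
    conv_lhs => rw [h4]
    rw [map_sum]
    refine Finset.sum_congr rfl fun i _ => ?_
    rw [← h4, map_smul, smul_eq_mul, mul_comm]
  have i4 : Integrable (fun x : En d => fderiv ℝ u x x) := by
    have h5 : (fun x : En d => fderiv ℝ u x x) =
        fun x => ∑ i, fderiv ℝ u x (e i) * ⟪e i, x⟫_ℝ := funext h3
    rw [h5]
    exact integrable_finsetSum _ fun i _ => i1 i
  refine ⟨i4.add (i2'.const_mul (d : ℝ)), ?_⟩
  rw [integral_add i4 (i2'.const_mul (d : ℝ)), integral_const_mul]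
  simp_rw [h3]
  rw [integral_finsetSum _ (fun i _ => i1 i)]
  simp only [h1, Finset.sum_const, Finset.card_univ, Fintype.card_fin, nsmul_eq_mul]
  ring

theorem rwk_open (d : ℕ) (a b : ℝ) : IsOpen (Sh d a b) :=
  (isOpen_lt continuous_const continuous_norm).inter (isOpen_lt continuous_norm continuous_const)

theorem rwk_pos {a b : ℝ} (ha : 0 < a) {x : En d} (hx : x ∈ Sh d a b) : 0 < ‖x‖ ^ 2 := by
  have h1 : a < ‖x‖ := hx.1
  have h2 : 0 < ‖x‖ := ha.trans h1
  positivity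

/-- radial functions are smooth on the annulus -/
theorem rwk_smooth {a b : ℝ} (ha : 0 < a) {h : ℝ → ℝ}
    (hh : ContDiffOn ℝ ((⊤ : ℕ∞) : WithTop ℕ∞) h (Ioi 0)) :
    ContDiffOn ℝ ((⊤ : ℕ∞) : WithTop ℕ∞) (fun y : En d => h (‖y‖ ^ 2)) (Sh d a b) :=
  hh.comp (contDiff_norm_sq ℝ).contDiffOn fun _ hx => rwk_pos ha hx

theorem rwk_deriv {h : ℝ → ℝ} (hh : ContDiffOn ℝ ((⊤ : ℕ∞) : WithTop ℕ∞) h (Ioi 0)) :
    ContDiffOn ℝ ((⊤ : ℕ∞) : WithTop ℕ∞) (deriv h) (Ioi 0) :=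
  hh.deriv_of_isOpen isOpen_Ioi (by simp)

theorem rwk_fderiv {h : ℝ → ℝ} (hh : ContDiffOn ℝ ((⊤ : ℕ∞) : WithTop ℕ∞) h (Ioi 0)) (x : En d)
    (hx : 0 < ‖x‖ ^ 2) :
    HasFDerivAt (fun y : En d => h (‖y‖ ^ 2)) (deriv h (‖x‖ ^ 2) • (2 • innerSL ℝ x)) x := by
  have h1 : HasDerivAt h (deriv h (‖x‖ ^ 2)) (‖x‖ ^ 2) :=
    ((hh.contDiffAt (Ioi_mem_nhds hx)).differentiableAt (by simp)).hasDerivAt
  exact h1.comp_hasFDerivAt x (hasStrictFDerivAt_norm_sq x).hasFDerivAt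

theorem rwk_fderiv' {h : ℝ → ℝ} (hh : ContDiffOn ℝ ((⊤ : ℕ∞) : WithTop ℕ∞) h (Ioi 0)) (x w : En d)
    (hx : 0 < ‖x‖ ^ 2) :
    fderiv ℝ (fun y : En d => h (‖y‖ ^ 2)) x w = 2 * deriv h (‖x‖ ^ 2) * ⟪x, w⟫_ℝ := by
  rw [(rwk_fderiv hh x hx).fderiv]
  simp only [_root_.smul_apply, innerSL_apply_apply, smul_eq_mul, nsmul_eq_mul]
  push_cast
  ring

theorem rwd : RwdStmt := by
  intro d a b g ψ hd ha hab hg hψ
  have hΩ := rwk_open d a b
  have hg' := rwk_deriv hg
  have hg'' := rwk_deriv hg'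
  set K : En d → ℝ := fun y => 2 * deriv g (‖y‖ ^ 2) with hK
  have hKs : ContDiffOn ℝ ((⊤ : ℕ∞) : WithTop ℕ∞) K (Sh d a b) :=
    contDiffOn_const.mul (rwk_smooth ha hg')
  set u : En d → ℝ := fun x => ψ x * K x with hu
  have huT : Tst (Sh d a b) u := mul_smooth hΩ hψ hKs
  obtain ⟨hBi, hB⟩ := euler_int huT.1 huT.2.1
  have dψ : ∀ x, DifferentiableAt ℝ ψ x := fun x => (hψ.1.differentiable (by simp)) x
  have p1 : ∀ x ∈ Sh d a b, ⟪gradient ψ x, gradient (fun y => g (‖y‖ ^ 2)) x⟫_ℝ =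
      2 * deriv g (‖x‖ ^ 2) * ⟪gradient ψ x, x⟫_ℝ := by
    intro x hx
    rw [real_inner_comm, grad_inner, rwk_fderiv' hg x _ (rwk_pos ha hx), real_inner_comm]
  have p3 : ∀ x ∈ Sh d a b, fderiv ℝ u x x = 2 * deriv g (‖x‖ ^ 2) * ⟪gradient ψ x, x⟫_ℝ +
      ψ x * (2 * (2 * deriv (deriv g) (‖x‖ ^ 2) * ‖x‖ ^ 2)) := by
    intro x hx
    have h0 : HasFDerivAt K ((2 : ℝ) • (deriv (deriv g) (‖x‖ ^ 2) • (2 • innerSL ℝ x))) x :=
      (rwk_fderiv hg' x (rwk_pos ha hx)).const_mul 2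
    have h1 : HasFDerivAt u (ψ x • ((2 : ℝ) • (deriv (deriv g) (‖x‖ ^ 2) • (2 • innerSL ℝ x))) +
        K x • fderiv ℝ ψ x) x := (dψ x).hasFDerivAt.mul h0
    rw [h1.fderiv]
    simp only [_root_.add_apply, _root_.smul_apply, smul_eq_mul, innerSL_apply_apply, nsmul_eq_mul]
    rw [← grad_inner, real_inner_self_eq_norm_sq]
    simp only [hK]
    push_cast
    ring
  have key : ∀ x ∈ Sh d a b, ⟪gradient ψ x, gradient (fun y => g (‖y‖ ^ 2)) x⟫_ℝ =
      (fderiv ℝ u x x + (d : ℝ) * u x) - ψ x * Ld d 0 g (‖x‖ ^ 2) := by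
    intro x hx
    rw [p1 x hx, p3 x hx]
    simp only [hu, hK, Ld]
    ring
  have hmeas : MeasurableSet (Sh d a b) := hΩ.measurableSet
  have hae : ∀ᵐ x ∂(mu (Sh d a b)), x ∈ Sh d a b := ae_restrict_mem hmeas
  have iB : Integrable (fun x => fderiv ℝ u x x + (d : ℝ) * u x) (mu (Sh d a b)) :=
    hBi.mono_measure Measure.restrict_le_self
  have iC : Integrable (fun x => ψ x * Ld d 0 g (‖x‖ ^ 2)) (mu (Sh d a b)) := by
    have h1 : ContinuousOn (fun x : En d => Ld d 0 g (‖x‖ ^ 2)) (Sh d a b) := by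
      have c1 : ContinuousOn (fun x : En d => deriv (deriv g) (‖x‖ ^ 2)) (Sh d a b) :=
        (rwk_smooth ha hg'').continuousOn
      have c2 : ContinuousOn (fun x : En d => deriv g (‖x‖ ^ 2)) (Sh d a b) :=
        (rwk_smooth ha hg').continuousOn
      have c3 : ContinuousOn (fun x : En d => g (‖x‖ ^ 2)) (Sh d a b) :=
        (rwk_smooth ha hg).continuousOn
      have c4 : ContinuousOn (fun x : En d => ‖x‖ ^ 2) (Sh d a b) :=
        (continuous_norm.pow 2).continuousOn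
      unfold Ld
      exact (((continuousOn_const.mul c4).mul c1).add
        (continuousOn_const.mul c2)).add (continuousOn_const.mul c3)
    obtain ⟨h2, h3⟩ := cont_ext (v := fun x => ψ x * Ld d 0 g (‖x‖ ^ 2)) hΩ
      hψ.2.1 hψ.2.2 (hψ.1.continuous.continuousOn.mul h1)
      (fun x hx => by
        show ψ x * _ = 0
        rw [image_eq_zero_of_notMem_tsupport hx, zero_mul])
    exact (h2.integrable_of_hasCompactSupport h3).mono_measure Measure.restrict_le_self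
  have hB' : ∫ x, (fderiv ℝ u x x + (d : ℝ) * u x) ∂(mu (Sh d a b)) = 0 := by
    rw [← hB]
    refine setIntegral_eq_integral_of_forall_compl_eq_zero fun x hx => ?_
    have h1 : x ∉ tsupport u := fun h => hx (huT.2.2 h)
    rw [fderiv_zero_of h1, image_eq_zero_of_notMem_tsupport h1]
    simp
  rw [integral_congr_ae (hae.mono fun x hx => key x hx)]
  have e1 : ∫ x, ((fderiv ℝ u x x + (d : ℝ) * u x) - ψ x * Ld d 0 g (‖x‖ ^ 2)) ∂(mu (Sh d a b)) =
      (∫ x, (fderiv ℝ u x x + (d : ℝ) * u x) ∂(mu (Sh d a b))) -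
        ∫ x, ψ x * Ld d 0 g (‖x‖ ^ 2) ∂(mu (Sh d a b)) := integral_sub iB iC
  rw [e1, hB', zero_sub]

end

end Pool.Agent.BER.H29
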