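import Pool.Agent.BER.StmtsE

/-!
# Squad BER (MP_be01ff_an), row LOD: linear equations of second order (by the angle and the logarithm
of the amplitude)
-/

set_option autoImplicit false

namespace Pool.Agent.BER.H29

open Set Metric Filter Topology MeasureTheory
open scoped NNReal

/-- Global solutions of scalar equations with a right-hand side which is bounded and Lipschitz on
every bounded interval of time. -/
theorem ode_loc (w : ℝ → ℝ → ℝ) (K B : ℕ → ℝ≥0) (t1 x1 : ℝ) (hcont : ∀ x, Continuous fun t => w t x)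
    (hlip : ∀ (n : ℕ), ∀ t ∈ Icc (t1 - (n + 1)) (t1 + (n + 1)), LipschitzWith (K n) (w t))
    (hB : ∀ (n : ℕ), ∀ t ∈ Icc (t1 - (n + 1)) (t1 + (n + 1)), ∀ x, ‖w t x‖ ≤ B n) :
    ∃ ξ : ℝ → ℝ, ξ t1 = x1 ∧ ∀ t, HasDerivAt ξ (w t (ξ t)) t := by
  have hex : ∀ n : ℕ, ∃ α : ℝ → ℝ, α t1 = x1 ∧ ∀ t ∈ Icc (t1 - (n + 1)) (t1 + (n + 1)),
      HasDerivWithinAt α (w t (α t)) (Icc (t1 - (n + 1)) (t1 + (n + 1))) t := by
    intro n
    have hmem : t1 ∈ Icc (t1 - ((n : ℝ) + 1)) (t1 + (n + 1)) := by
      constructor <;> linarith [Nat.cast_nonneg (α := ℝ) n]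
    have hPL : IsPicardLindelof w (⟨t1, hmem⟩ : Icc (t1 - ((n : ℝ) + 1)) (t1 + (n + 1))) x1
        (B n * (n + 1)) 0 (B n) (K n) := by
      refine ⟨fun t ht => (hlip n t ht).lipschitzOnWith, fun x _ => (hcont x).continuousOn,
        fun t ht x _ => hB n t ht x, ?_⟩
      simp
    exact hPL.exists_eq_forall_mem_Icc_hasDerivWithinAt₀
  choose α hα1 hα2 using hex
  have huniq : ∀ n m : ℕ, n ≤ m → EqOn (α n) (α m) (Icc (t1 - (n + 1)) (t1 + (n + 1))) := by
    intro n m hnm
    have hnm' : (n : ℝ) ≤ m := by exact_mod_cast hnm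
    have hsub : Icc (t1 - ((n : ℝ) + 1)) (t1 + (n + 1)) ⊆ Icc (t1 - ((m : ℝ) + 1)) (t1 + (m + 1)) :=
      Icc_subset_Icc (by linarith) (by linarith)
    have hmem : t1 ∈ Ioo (t1 - ((n : ℝ) + 1)) (t1 + (n + 1)) := by
      constructor <;> linarith [Nat.cast_nonneg (α := ℝ) n]
    refine ODE_solution_unique_of_mem_Icc (v := w) (s := fun _ => univ) (K := K n)
      (fun t ht => (hlip n t (Ioo_subset_Icc_self ht)).lipschitzOnWith) hmem ?_ ?_
      (fun _ _ => trivial) ?_ ?_ (fun _ _ => trivial) ?_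
    · exact fun t ht => (hα2 n t ht).continuousWithinAt
    · exact fun t ht => (hα2 n t (Ioo_subset_Icc_self ht)).hasDerivAt (Icc_mem_nhds ht.1 ht.2)
    · exact fun t ht => ((hα2 m t (hsub ht)).mono hsub).continuousWithinAt
    · exact fun t ht => ((hα2 m t (hsub (Ioo_subset_Icc_self ht))).mono hsub).hasDerivAt
        (Icc_mem_nhds ht.1 ht.2)
    · rw [hα1, hα1]
  refine ⟨fun t => α ⌈|t - t1|⌉₊ t, ?_, ?_⟩
  · simp [hα1]
  · intro t
    set N := ⌈|t - t1|⌉₊ + 1 with hN
    have hev : (fun s => α ⌈|s - t1|⌉₊ s) =ᶠ[𝓝 t] α N := by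
      have : ∀ᶠ s in 𝓝 t, |s - t1| < |t - t1| + 1 := by
        have hc : Continuous fun s : ℝ => |s - t1| := by fun_prop
        exact hc.continuousAt.eventually_lt continuousAt_const (by simp)
      filter_upwards [this] with s hs
      have h1 : ⌈|s - t1|⌉₊ ≤ N := by
        rw [hN]
        apply Nat.ceil_le.2
        push_cast
        have := Nat.le_ceil |t - t1|
        linarith
      have h2 := Nat.le_ceil |s - t1|
      have h3 := abs_le.1 h2
      exact huniq _ _ h1 ⟨by linarith [h3.1], by linarith [h3.2]⟩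
    have h2 := Nat.le_ceil |t - t1|
    have h3 := abs_le.1 h2
    have hd : HasDerivAt (α N) (w t (α N t)) t := by
      apply (hα2 N t _).hasDerivAt (Icc_mem_nhds _ _)
      · rw [hN]; push_cast
        exact ⟨by linarith [h3.1], by linarith [h3.2]⟩
      · rw [hN]; push_cast
        linarith [h3.1]
      · rw [hN]; push_cast
        linarith [h3.2]
    have := hd.congr_of_eventuallyEq hev
    rwa [← hev.eq_of_nhds] at this

theorem sin_sq_lip (a b : ℝ) : |Real.sin a ^ 2 - Real.sin b ^ 2| ≤ 2 * |a - b| := by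
  have h1 : Real.sin a ^ 2 - Real.sin b ^ 2 =
      (Real.sin a - Real.sin b) * (Real.sin a + Real.sin b) := by ring
  have h2 : |Real.sin a - Real.sin b| ≤ |a - b| := by
    have := Real.abs_sin_sub_sin_le a b
    exact this
  have h3 : |Real.sin a + Real.sin b| ≤ 2 := by
    have h4 := Real.abs_sin_le_one a
    have h5 := Real.abs_sin_le_one b
    calc |Real.sin a + Real.sin b| ≤ |Real.sin a| + |Real.sin b| := abs_add_le _ _
      _ ≤ 2 := by linarith
  rw [h1, abs_mul]
  nlinarith [abs_nonneg (Real.sin a - Real.sin b), abs_nonneg (a - b)]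

/-- a solution with nonzero initial values -/
theorem lod_aux (p : ℝ → ℝ) (t0 A B : ℝ) (hp : Continuous p) (hAB : ¬ (A = 0 ∧ B = 0)) :
    ∃ y z : ℝ → ℝ, (∀ t, HasDerivAt y (z t) t) ∧ (∀ t, HasDerivAt z (p t * y t) t) ∧
      y t0 = A ∧ z t0 = B := by
  -- the angle
  have hbd : ∀ n : ℕ, ∃ M : ℝ, 0 ≤ M ∧ ∀ t ∈ Icc (t0 - ((n : ℝ) + 1)) (t0 + (n + 1)),
      |1 + p t| ≤ M := by
    intro n
    obtain ⟨M, hM⟩ := (isCompact_Icc (a := t0 - ((n : ℝ) + 1)) (b := t0 + (n + 1))).exists_bound_of_continuousOn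
      (f := fun t => 1 + p t) (continuous_const.add hp).continuousOn
    exact ⟨max M 0, le_max_right _ _, fun t ht => (hM t ht).trans (le_max_left _ _)⟩
  choose M hM0 hM using hbd
  obtain ⟨θ, hθ0, hθ⟩ := ode_loc (fun t x => 1 - (1 + p t) * Real.sin x ^ 2)
    (fun n => ⟨2 * M n, by have := hM0 n; positivity⟩)
    (fun n => ⟨1 + M n, by have := hM0 n; positivity⟩) t0 (Complex.arg ⟨B, A⟩)
    (by intro x; fun_prop)
    (by
      intro n t ht
      refine LipschitzWith.of_dist_le_mul fun x x' => ?_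
      rw [Real.dist_eq, Real.dist_eq]
      have h1 : 1 - (1 + p t) * Real.sin x ^ 2 - (1 - (1 + p t) * Real.sin x' ^ 2) =
          (1 + p t) * (Real.sin x' ^ 2 - Real.sin x ^ 2) := by ring
      rw [h1, abs_mul]
      have h2 := sin_sq_lip x' x
      rw [abs_sub_comm x' x] at h2
      have h3 := hM n t ht
      show |1 + p t| * |Real.sin x' ^ 2 - Real.sin x ^ 2| ≤ (2 * M n) * |x - x'|
      calc |1 + p t| * |Real.sin x' ^ 2 - Real.sin x ^ 2| ≤ M n * (2 * |x - x'|) := by
            gcongr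
            exact hM0 n
        _ = (2 * M n) * |x - x'| := by ring)
    (by
      intro n t ht x
      have h3 := hM n t ht
      show |1 - (1 + p t) * Real.sin x ^ 2| ≤ 1 + M n
      have h4 : |(1 + p t) * Real.sin x ^ 2| ≤ M n := by
        rw [abs_mul]
        have h5 : |Real.sin x ^ 2| ≤ 1 := by
          rw [abs_of_nonneg (sq_nonneg _)]
          exact Real.sin_sq_le_one x
        calc |1 + p t| * |Real.sin x ^ 2| ≤ M n * 1 := by
              gcongr
              exact hM0 n
          _ = M n := mul_one _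
      calc |1 - (1 + p t) * Real.sin x ^ 2| ≤ |(1 : ℝ)| + |(1 + p t) * Real.sin x ^ 2| := by
            rw [sub_eq_add_neg]
            refine (abs_add_le _ _).trans ?_
            rw [abs_neg]
        _ ≤ 1 + M n := by
            rw [abs_one]
            linarith)
  have hθc : Continuous θ := continuous_iff_continuousAt.2 fun t => (hθ t).continuousAt
  -- the amplitude
  set r : ℝ := ‖(⟨B, A⟩ : ℂ)‖ with hr
  have hz : (⟨B, A⟩ : ℂ) ≠ 0 := by
    intro h
    apply hAB
    exact ⟨congrArg Complex.im h, congrArg Complex.re h⟩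
  have hr0 : 0 < r := norm_pos_iff.2 hz
  set F : ℝ → ℝ := fun t => (1 + p t) * (Real.sin (θ t) * Real.cos (θ t)) with hF
  have hFc : Continuous F := by
    simp only [hF]
    fun_prop
  set ρ : ℝ → ℝ := fun t => Real.log r + ∫ s in t0..t, F s with hρ
  have hρd : ∀ t, HasDerivAt ρ (F t) t := fun t =>
    (intervalIntegral.integral_hasDerivAt_right (hFc.intervalIntegrable _ _)
      (hFc.stronglyMeasurableAtFilter _ _) hFc.continuousAt).const_add _
  have hρ0 : ρ t0 = Real.log r := by
    simp only [hρ, intervalIntegral.integral_same, add_zero]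
  refine ⟨fun t => Real.exp (ρ t) * Real.sin (θ t), fun t => Real.exp (ρ t) * Real.cos (θ t),
    ?_, ?_, ?_, ?_⟩
  · intro t
    refine ((hρd t).exp.mul (hθ t).sin).congr_deriv ?_
    simp only [hF]
    have h1 := Real.sin_sq_add_cos_sq (θ t)
    ring
  · intro t
    refine ((hρd t).exp.mul (hθ t).cos).congr_deriv ?_
    simp only [hF]
    have h1 : Real.cos (θ t) ^ 2 = 1 - Real.sin (θ t) ^ 2 := by
      have := Real.sin_sq_add_cos_sq (θ t)
      linarith
    have h2 : Real.exp (ρ t) * ((1 + p t) * (Real.sin (θ t) * Real.cos (θ t))) * Real.cos (θ t) +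
        Real.exp (ρ t) * (-Real.sin (θ t) * (1 - (1 + p t) * Real.sin (θ t) ^ 2)) =
        Real.exp (ρ t) * Real.sin (θ t) * ((1 + p t) * Real.cos (θ t) ^ 2 - 1 +
          (1 + p t) * Real.sin (θ t) ^ 2) := by ring
    rw [h2, h1]
    ring
  · show Real.exp (ρ t0) * Real.sin (θ t0) = A
    rw [hρ0, Real.exp_log hr0, hθ0, Complex.sin_arg]
    show r * (A / r) = A
    field_simp
  · show Real.exp (ρ t0) * Real.cos (θ t0) = B
    rw [hρ0, Real.exp_log hr0, hθ0, Complex.cos_arg hz]
    show r * (B / r) = B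
    field_simp

/-- LOD. -/
theorem lod : LodStmt := by
  intro p t0 A B hp
  obtain ⟨y, z, hy, hz, hA, hB⟩ : ∃ y z : ℝ → ℝ, (∀ t, HasDerivAt y (z t) t) ∧
      (∀ t, HasDerivAt z (p t * y t) t) ∧ y t0 = A ∧ z t0 = B := by
    by_cases hAB : A = 0 ∧ B = 0
    · refine ⟨fun _ => 0, fun _ => 0, fun t => hasDerivAt_const _ _, fun t => ?_, hAB.1.symm,
        hAB.2.symm⟩
      simpa using hasDerivAt_const t (0 : ℝ)
    · exact lod_aux p t0 A B hp.continuous hAB
  have hdy : deriv y = z := funext fun t => (hy t).deriv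
  have hdz : deriv z = fun t => p t * y t := funext fun t => (hz t).deriv
  have hn : ∀ n : ℕ, ContDiff ℝ n y ∧ ContDiff ℝ n z := by
    intro n
    induction n with
    | zero =>
      constructor
      · exact contDiff_zero.2 (continuous_iff_continuousAt.2 fun t => (hy t).continuousAt)
      · exact contDiff_zero.2 (continuous_iff_continuousAt.2 fun t => (hz t).continuousAt)
    | succ n ih =>
      have hpn : ContDiff ℝ n p := hp.of_le (by exact_mod_cast le_top)
      constructor
      · push_cast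
        rw [contDiff_succ_iff_deriv]
        refine ⟨fun t => (hy t).differentiableAt, by simp, ?_⟩
        rw [hdy]
        exact ih.2
      · push_cast
        rw [contDiff_succ_iff_deriv]
        refine ⟨fun t => (hz t).differentiableAt, by simp, ?_⟩
        rw [hdz]
        exact hpn.mul ih.1
  refine ⟨y, contDiff_infty.2 fun n => (hn n).1, ?_, hA, ?_⟩
  · rw [hdy]
    exact hz
  · rw [hdy]
    exact hB

end Pool.Agent.BER.H29
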